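import Pool.Agent.V11258.GP.Sel

namespace Pool.Agent.Results.MP_82c070_gt.GroupableNotOmega

open Cardinal Filter Set

/-- `Ω`: the open `ω`-covers of `X`. -/
def Omega (X : Type) [TopologicalSpace X] : Set (Set (Set X)) :=
  {𝒰 | (∀ U ∈ 𝒰, IsOpen U) ∧ Set.univ ∉ 𝒰 ∧ ∀ F : Finset X, ∃ U ∈ 𝒰, (F : Set X) ⊆ U}

/-- `O^{ωgp}`: the `ω`-groupable open covers of `X`. -/
def OmegaGp (X : Type) [TopologicalSpace X] : Set (Set (Set X)) :=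
  {𝒰 | (∀ U ∈ 𝒰, IsOpen U) ∧ ⋃₀ 𝒰 = Set.univ ∧
    ∃ ℱ : ℕ → Set (Set X), (∀ n, (ℱ n).Finite) ∧ (∀ m n, m ≠ n → Disjoint (ℱ m) (ℱ n)) ∧
      (⋃ n, ℱ n) = 𝒰 ∧ ∀ F : Finset X, ∃ n, (F : Set X) ⊆ ⋃₀ ℱ n}

/-- The selection principle `S₁(𝒜, ℬ)`. -/
def S1 {X : Type} (𝒜 ℬ : Set (Set (Set X))) : Prop :=
  ∀ 𝒰 : ℕ → Set (Set X), (∀ n, 𝒰 n ∈ 𝒜) →
    ∃ U : ℕ → Set X, (∀ n, U n ∈ 𝒰 n) ∧ Set.range U ∈ ℬ

/-- Blocks of a strictly increasing sequence starting at `0` cover `ℕ`. -/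
theorem exists_block {a : ℕ → ℕ} (h0 : a 0 = 0) (hm : StrictMono a) (n : ℕ) :
    ∃ j, n ∈ Ico (a j) (a (j+1)) := by
  classical
  have h : ∃ j, n < a (j+1) := ⟨n, lt_of_lt_of_le (Nat.lt_succ_self n) hm.le_apply⟩
  refine ⟨Nat.find h, ?_, Nat.find_spec h⟩
  rcases Nat.eq_zero_or_pos (Nat.find h) with h1 | h1
  · rw [h1, h0]; exact Nat.zero_le n
  · have h2 := Nat.find_min h (Nat.sub_lt h1 Nat.one_pos)
    rw [Nat.sub_add_cancel h1] at h2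
    exact not_lt.mp h2

theorem block_unique {a : ℕ → ℕ} (hm : StrictMono a) {n i j : ℕ} (hi : n ∈ Ico (a i) (a (i+1)))
    (hj : n ∈ Ico (a j) (a (j+1))) : i = j := by
  by_contra hne
  rcases lt_or_gt_of_ne hne with h | h
  · exact absurd (hi.2.trans_le ((hm.monotone (Nat.succ_le_of_lt h)).trans hj.1)) (lt_irrefl _)
  · exact absurd (hj.2.trans_le ((hm.monotone (Nat.succ_le_of_lt h)).trans hi.1)) (lt_irrefl _)

/-- Under CH some set of reals satisfies `S₁(Ω, O^{ωgp})` but not `S₁(Ω, Ω)`. -/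
theorem result (CH : (𝔠 : Cardinal.{0}) = ℵ₁) :
    ∃ X : Set ℝ, S1 (Omega X) (OmegaGp X) ∧ ¬ S1 (Omega X) (Omega X) := by
  obtain ⟨X, h1, 𝒰, h2, h3, h4, h5⟩ := Pool.Agent.V11258.GP.sel CH
  refine ⟨X, ?_, ?_⟩
  · intro 𝒱 h𝒱
    obtain ⟨U, a, hU, hinj, h0, hm, hF⟩ := h1 𝒱 (fun n => (h𝒱 n).1) (fun n => (h𝒱 n).2.1)
      (fun n => (h𝒱 n).2.2)
    refine ⟨U, hU, ?_, ?_, fun j => U '' Ico (a j) (a (j+1)), ?_, ?_, ?_, ?_⟩
    · rintro _ ⟨n, rfl⟩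
      exact (h𝒱 n).1 _ (hU n)
    · ext x
      simp only [mem_univ, iff_true]
      obtain ⟨j, hj⟩ := (hF {x}).exists
      have h6 := hj (Finset.mem_coe.mpr (Finset.mem_singleton_self x))
      simp only [mem_iUnion] at h6
      obtain ⟨n, _, h7⟩ := h6
      exact ⟨U n, ⟨n, rfl⟩, h7⟩
    · intro j
      exact (finite_Ico _ _).image U
    · intro i j hij
      rw [Set.disjoint_left]
      rintro _ ⟨m, hm1, rfl⟩ ⟨n, hn1, e⟩
      have : n = m := hinj e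
      subst this
      exact hij (block_unique hm hm1 hn1)
    · ext V
      simp only [mem_iUnion, mem_range, mem_image]
      constructor
      · rintro ⟨j, n, _, rfl⟩; exact ⟨n, rfl⟩
      · rintro ⟨n, rfl⟩
        obtain ⟨j, hj⟩ := exists_block h0 hm n
        exact ⟨j, n, hj, rfl⟩
    · intro F
      obtain ⟨j, hj⟩ := (hF F).exists
      refine ⟨j, fun x hx => ?_⟩
      have h6 := hj hx
      simp only [mem_iUnion] at h6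
      obtain ⟨n, hn, h7⟩ := h6
      exact ⟨U n, ⟨n, hn, rfl⟩, h7⟩
  · intro hS
    obtain ⟨U, hU, hΩ⟩ := hS 𝒰 (fun n => ⟨h2 n, h3 n, h4 n⟩)
    refine h5 U hU fun F => ?_
    obtain ⟨_, ⟨n, rfl⟩, hF⟩ := hΩ.2.2 F
    exact ⟨n, hF⟩

end Pool.Agent.Results.MP_82c070_gt.GroupableNotOmega
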